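import Mathlib

set_option autoImplicit false

namespace Pool.Agent.H.MP_a5b52c_an

open Filter Topology Set Metric RCLike
open scoped ENNReal

variable {𝕜 : Type} [RCLike 𝕜]

section
variable {X : Type} [NormedAddCommGroup X] [NormedSpace 𝕜 X]

def env (A : Set (StrongDual 𝕜 X)) : Set (StrongDual 𝕜 X) :=
  ⋂ C ∈ {C : ℕ → Set (StrongDual 𝕜 X) | ⋃ n, C n = A}, closure (convexHull ℝ (⋃ n,
    StrongDual.toWeakDual ⁻¹' closure (StrongDual.toWeakDual '' convexHull ℝ (C n))))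

lemma cvx (x : X) (c : ℝ) : Convex ℝ {ζ : StrongDual 𝕜 X | re (ζ x) ≤ c} :=
  convex_halfSpace_le (f := fun ζ : StrongDual 𝕜 X => re (ζ x))
    ⟨fun a b => by simp, fun a b => smul_re a _⟩ c

lemma easy {A : Set (StrongDual 𝕜 X)} {η : StrongDual 𝕜 X} (h : η ∈ env A) (x : ℕ → X)
    {M c δ : ℝ} (hx : ∀ n, ‖x n‖ ≤ M) (hA : ∀ ξ ∈ A, ∀ᶠ n in atTop, re (ξ (x n)) ≤ c)
    (hδ : 0 < δ) : ∃ n, re (η (x n)) ≤ c + δ := by
  have M0 : 0 ≤ M := (norm_nonneg _).trans (hx 0)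
  have := mem_iInter₂.1 h (fun k => {ξ ∈ A | ∀ n ≥ k, re (ξ (x n)) ≤ c})
    ((iUnion_subset fun k => sep_subset _ _).antisymm fun ξ hξ =>
      mem_iUnion.2 ((eventually_atTop.1 (hA ξ hξ)).imp fun k hk => ⟨hξ, hk⟩))
  obtain ⟨ζ, h1, h2⟩ := Metric.mem_closure_iff.1 this (δ / (M + 1)) (by positivity)
  have : ∀ᶠ n in atTop, re (ζ (x n)) ≤ c := by
    refine convexHull_min (t := {ζ | ∀ᶠ n in atTop, re (ζ (x n)) ≤ c}) (iUnion_subset fun k φ hφ =>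
      (eventually_ge_atTop k).mono fun n hn => ?_) (fun a ha b hb s t p q r => (ha.and hb).mono
        fun n hn => cvx (x n) c hn.1 hn.2 p q r) h1
    exact closure_minimal (t := {φ : WeakDual 𝕜 X | re (φ (x n)) ≤ c}) (image_subset_iff.2
      (convexHull_min (fun ξ hξ => hξ.2 n hn) (cvx (x n) c))) (isClosed_le
        (continuous_re.comp (WeakDual.eval_continuous _)) continuous_const) hφ
  obtain ⟨n, hn⟩ := this.exists
  refine ⟨n, ?_⟩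
  have a : re ((η - ζ) (x n)) ≤ δ / (M + 1) * M := (re_le_norm _).trans
    (((η - ζ).le_opNorm _).trans (mul_le_mul (dist_eq_norm η ζ ▸ h2.le) (hx n) (norm_nonneg _)
      (by positivity)))
  have b : δ / (M + 1) * M ≤ δ := by
    rw [div_mul_eq_mul_div, div_le_iff₀ (by positivity)]
    nlinarith
  rw [_root_.sub_apply, map_sub] at a
  linarith

lemma clu {ι : Type} (U : Ultrafilter ι) {a b : ι → StrongDual 𝕜 X} {r : ℝ} (hb : ∀ i, ‖b i‖ ≤ r)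
    (h : ∀ x, ∀ᶠ i in U, b i x = a i x) {S : Set (StrongDual 𝕜 X)} (hS : ∀ᶠ i in U, a i ∈ S) :
    ∃ φ ∈ StrongDual.toWeakDual ⁻¹' closure (StrongDual.toWeakDual '' S), ‖φ‖ ≤ r := by
  obtain ⟨φ, p1, p2⟩ := (WeakDual.isCompact_closedBall (0 : StrongDual 𝕜 X) r).ultrafilter_le_nhds
    (U.map fun i => StrongDual.toWeakDual (b i)) (le_principal_iff.2 (mem_map.2 (univ_mem' fun i =>
      mem_closedBall_zero_iff.2 (hb i))))
  have t : Tendsto (fun i => StrongDual.toWeakDual (a i)) U (𝓝 φ) :=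
    tendsto_iff_forall_eval_tendsto_topDualPairing.2 fun x =>
      (((WeakDual.eval_continuous x).tendsto _).comp p2).congr' (h x)
  have : φ ∈ closure (StrongDual.toWeakDual '' S) :=
    mem_closure_of_tendsto t (hS.mono fun i => mem_image_of_mem _)
  exact ⟨WeakDual.toStrongDual φ, this, mem_closedBall_zero_iff.1 p1⟩

lemma nsm {r : ℝ} (h : 0 ≤ r) {φ : StrongDual 𝕜 X} (h' : ‖φ‖ ≤ 1) : ‖r • φ‖ ≤ r :=
  (φ.opNorm_smul_le r).trans ((mul_le_of_le_one_right (norm_nonneg _) h').trans_eq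
    (Real.norm_of_nonneg h))
end

def Sml (S : Set (ℕ → ℕ)) : Prop := ∃ g : ℕ → ℕ → ℕ, ∀ γ ∈ S, ∃ i, γ ≤ g i

lemma Sml.mono {S T : Set (ℕ → ℕ)} (h : Sml T) (h' : S ⊆ T) : Sml S :=
  h.imp fun _ hg γ hγ => hg γ (h' hγ)

lemma Sml.union {S : ℕ → Set (ℕ → ℕ)} (h : ∀ n, Sml (S n)) : Sml (⋃ n, S n) := by
  choose g hg using h
  refine ⟨fun i => g i.unpair.1 i.unpair.2, fun γ hγ => ?_⟩
  obtain ⟨n, hn⟩ := mem_iUnion.1 hγ
  obtain ⟨i, hi⟩ := hg n γ hn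
  exact ⟨n.pair i, by simpa using hi⟩

lemma Sml.union₂ {S T : Set (ℕ → ℕ)} (h : Sml S) (h' : Sml T) : Sml (S ∪ T) :=
  (Sml.union (S := fun n => if n = 0 then S else T) fun n => by split_ifs <;> assumption).mono
    (union_subset (subset_iUnion_of_subset 0 (by simp)) (subset_iUnion_of_subset 1 (by simp)))

lemma slice (j : ℕ) : ¬ Sml {γ | γ 0 = j} := fun ⟨g, hg⟩ => by
  obtain ⟨i, hi⟩ := hg (fun n => n.casesOn (motive := fun _ => ℕ) j fun i => g i (i + 1) + 1) rfl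
  exact (Nat.lt_succ_self _).not_ge (hi (i + 1))

variable (𝕜) in
abbrev L := lp (fun _ : ℕ → ℕ => 𝕜) ∞

variable (𝕜) in
def Z : Submodule 𝕜 (L 𝕜) where
  carrier := {f | Sml (Function.support f)}
  add_mem' := fun ha hb => (ha.union₂ hb).mono (Function.support_add _ _)
  zero_mem' := ⟨0, fun γ h => (h rfl).elim⟩
  smul_mem' := fun c f h => h.mono fun γ hγ h' => hγ (by simp [h'])

instance : CompleteSpace (Z 𝕜) := IsClosed.completeSpace_coe (hs := IsSeqClosed.isClosed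
  fun f p hf hp => (Sml.union hf).mono fun γ hγ => by_contra fun hc => hγ (by
    have := ((lp.evalCLM 𝕜 (fun _ : ℕ → ℕ => 𝕜) ∞ γ).continuous.tendsto _).comp hp
    refine tendsto_nhds_unique this (tendsto_const_nhds.congr fun n => ?_)
    simp only [mem_iUnion, not_exists, Function.mem_support, not_not] at hc
    exact (hc n).symm))

variable (𝕜) in
def X : Type := Z 𝕜 × L 𝕜

noncomputable instance : NormedAddCommGroup (X 𝕜) := inferInstanceAs (NormedAddCommGroup (Z 𝕜 × L 𝕜))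
noncomputable instance : NormedSpace 𝕜 (X 𝕜) := inferInstanceAs (NormedSpace 𝕜 (Z 𝕜 × L 𝕜))
instance : CompleteSpace (X 𝕜) := inferInstanceAs (CompleteSpace (Z 𝕜 × L 𝕜))

noncomputable def e1 (γ : ℕ → ℕ) : StrongDual 𝕜 (X 𝕜) :=
  (lp.evalCLM 𝕜 _ ∞ γ).comp ((Z 𝕜).subtypeL.comp (ContinuousLinearMap.fst 𝕜 _ _))

noncomputable def e2 (γ : ℕ → ℕ) : StrongDual 𝕜 (X 𝕜) :=
  (lp.evalCLM 𝕜 _ ∞ γ).comp (ContinuousLinearMap.snd 𝕜 _ _)

lemma e1_le (γ : ℕ → ℕ) : ‖e1 (𝕜 := 𝕜) γ‖ ≤ 1 :=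
  ContinuousLinearMap.opNorm_le_bound _ zero_le_one fun x => by
    rw [one_mul]
    exact (lp.norm_apply_le_norm ENNReal.top_ne_zero x.1.1 γ).trans (norm_fst_le x)

lemma e2_le (γ : ℕ → ℕ) : ‖e2 (𝕜 := 𝕜) γ‖ ≤ 1 :=
  ContinuousLinearMap.opNorm_le_bound _ zero_le_one fun x => by
    rw [one_mul]
    exact (lp.norm_apply_le_norm ENNReal.top_ne_zero x.2 γ).trans (norm_snd_le x)

variable (𝕜) in
noncomputable def xi (γ : ℕ → ℕ) : StrongDual 𝕜 (X 𝕜) :=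
  (γ 0 + 1 : ℝ) • e1 γ + (γ 0 + 1 : ℝ)⁻¹ • e2 γ

lemma xi_re (γ : ℕ → ℕ) (x : X 𝕜) :
    re (xi 𝕜 γ x) = (γ 0 + 1) * re (x.1.1 γ) + (γ 0 + 1 : ℝ)⁻¹ * re (x.2 γ) := by
  rw [← smul_re, ← smul_re, ← map_add]
  rfl

lemma ind (a : (ℕ → ℕ) → ℝ) {M : ℝ} (h : ∀ γ, |a γ| ≤ M) :
    ∃ f : L 𝕜, ‖f‖ ≤ M ∧ ∀ γ, f γ = a γ :=
  ⟨⟨fun γ => (a γ : 𝕜), memℓp_infty ⟨M, forall_mem_range.2 fun γ =>
    (norm_ofReal _).trans_le (h γ)⟩⟩,
    lp.norm_le_of_forall_le' M fun γ => (norm_ofReal _).trans_le (h γ), fun _ => rfl⟩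

lemma exz (g : ℕ → ℕ) : ∃ z : X 𝕜, ‖z‖ ≤ 1 ∧ ∀ γ, 0 ≤ re (xi 𝕜 γ z) ∧
    (γ ≤ g → re (xi 𝕜 γ z) = γ 0 + 1) := by
  classical
  obtain ⟨f, f1, f2⟩ := ind (𝕜 := 𝕜) (fun γ => if γ ≤ g then 1 else 0) (M := 1) fun γ => by
    split_ifs <;> simp
  refine ⟨(⟨f, fun _ => g, fun γ hγ => ⟨0, by_contra fun hc => hγ (by simp [f2, hc])⟩⟩, 0),
    max_le f1 (by simp), fun γ => ?_⟩
  simp only [xi_re, f2, ofReal_re, lp.coeFn_zero, Pi.zero_apply, map_zero, mul_zero, add_zero]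
  exact ⟨by positivity, fun h => by simp [h]⟩

lemma exy (N : ℕ) (S : Set (ℕ → ℕ)) : ∃ y : X 𝕜, ‖y‖ ≤ N + 1 ∧ ∀ γ, γ 0 ≤ N →
    re (xi 𝕜 γ y) = S.indicator 1 γ := by
  classical
  obtain ⟨f, f1, f2⟩ := ind (𝕜 := 𝕜) (fun γ => if γ ∈ S ∧ γ 0 ≤ N then γ 0 + 1 else 0)
    (M := N + 1) fun γ => by
    split_ifs with h
    · rw [abs_of_nonneg (by positivity)]
      exact_mod_cast Nat.succ_le_succ h.2
    · simp only [abs_zero]
      positivity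
  refine ⟨(0, f), max_le (by rw [norm_zero]; positivity) f1, fun γ hγ => ?_⟩
  rw [xi_re, f2, ofReal_re]
  by_cases hS : γ ∈ S <;> simp [hS, hγ]
  field_simp

lemma far (N : ℕ) {B : Set (ℕ → ℕ)} (hB : ∀ γ ∈ B, γ 0 ≤ N) {ζ : StrongDual 𝕜 (X 𝕜)}
    (h : ζ ∈ env (xi 𝕜 '' B)) : 1 ≤ ‖ζ‖ := by
  choose y y1 y2 using exy (𝕜 := 𝕜) N
  have y3 : ∀ (S : Set (ℕ → ℕ)) γ, (0 : ℝ) ≤ S.indicator 1 γ := fun S γ =>
    indicator_nonneg (fun _ _ => zero_le_one) γ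
  refine le_of_forall_pos_le_add fun δ hδ => ?_
  choose g hg using fun n : ℕ => easy h (fun k => y {γ | k < γ n}) (c := 0) (fun k => y1 _)
    (forall_mem_image.2 fun γ hγ => (eventually_ge_atTop (γ n)).mono fun k hk => by
      rw [y2 _ γ (hB γ hγ), indicator_of_notMem (show γ ∉ {γ | k < γ n} from not_lt.2 hk)])
    (show 0 < δ / 4 * (1 / 2) ^ n by positivity)
  obtain ⟨z, z1, z2⟩ := exz (𝕜 := 𝕜) g
  obtain ⟨M, hM⟩ := easy h (fun M => -(z + y {γ | ∃ n < M, g n < γ n})) (c := -1)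
    (fun M => (norm_neg _).trans_le ((norm_add_le _ _).trans (add_le_add z1 (y1 _))))
    (forall_mem_image.2 fun γ hγ => by
      simp only [map_neg, map_add, y2 _ γ (hB γ hγ), neg_le_neg_iff]
      by_cases hc : γ ≤ g
      · refine .of_forall fun M => ?_
        have : (0 : ℝ) ≤ γ 0 := by positivity
        linarith [(z2 γ).2 hc, y3 {γ | ∃ n < M, g n < γ n} γ]
      obtain ⟨n, hn⟩ := not_forall.1 hc
      refine (eventually_gt_atTop n).mono fun M hM => ?_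
      rw [indicator_of_mem (show γ ∈ {γ | ∃ n < M, g n < γ n} from ⟨n, hM, not_le.1 hn⟩)]
      exact le_add_of_nonneg_left (z2 γ).1) (show 0 < δ / 4 by positivity)
  obtain ⟨-, h3⟩ := easy h (fun _ => y {γ | ∃ n < M, g n < γ n} -
    ∑ n ∈ Finset.range M, y {γ | g n < γ n}) (c := 0) (fun _ => le_rfl)
    (forall_mem_image.2 fun γ hγ => .of_forall fun _ => by
      simp only [map_sub, map_sum, y2 _ γ (hB γ hγ), sub_nonpos]
      refine indicator_apply_le' (fun ⟨n, n1, n2⟩ => ?_) fun _ =>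
        Finset.sum_nonneg fun _ _ => y3 _ _
      exact (indicator_of_mem (show γ ∈ {γ | g n < γ n} from n2) _).ge.trans (Finset.single_le_sum
        (fun n _ => y3 {γ | g n < γ n} γ) (Finset.mem_range.2 n1)))
    (show 0 < δ / 4 by positivity)
  simp only [map_neg, map_add, map_sub, map_sum] at hM h3
  have h4 := Finset.sum_le_sum (s := Finset.range M) fun n _ => hg n
  simp only [zero_add, ← Finset.mul_sum] at h4
  have h5 : re (ζ z) ≤ ‖ζ‖ := (re_le_norm _).trans ((ζ.le_opNorm z).trans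
    (mul_le_of_le_one_right (norm_nonneg _) z1))
  nlinarith [sum_geometric_two_le M]

lemma zero_mem : (0 : StrongDual 𝕜 (X 𝕜)) ∈ env (range (xi 𝕜)) := by
  refine mem_iInter₂.2 fun C hC => Metric.mem_closure_iff.2 fun ε hε => ?_
  obtain ⟨j, hj⟩ := exists_nat_one_div_lt hε
  obtain ⟨k, hk⟩ : ∃ k, ¬ Sml {γ | γ 0 = j ∧ xi 𝕜 γ ∈ C k} := not_forall.1 fun h =>
    slice j ((Sml.union h).mono fun γ hγ => mem_iUnion.2
      ((mem_iUnion.1 (Eq.ge hC (mem_range_self γ))).imp fun k hk => ⟨hγ, hk⟩))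
  set F := Filter.comk Sml ⟨0, fun _ h => h.elim⟩ (fun _ h _ => h.mono) fun _ h _ => h.union₂
  have : (F ⊓ 𝓟 {γ | γ 0 = j ∧ xi 𝕜 γ ∈ C k}).NeBot := inf_principal_neBot_iff.2 fun U hU =>
    by_contra fun hc => hk (Sml.mono hU fun γ h1 h2 => hc ⟨γ, h2, h1⟩)
  obtain ⟨U, hU⟩ := Ultrafilter.exists_le (F ⊓ 𝓟 {γ | γ 0 = j ∧ xi 𝕜 γ ∈ C k})
  have u : ∀ᶠ γ in U, γ 0 = j ∧ xi 𝕜 γ ∈ C k := hU (mem_inf_of_right (mem_principal_self _))
  obtain ⟨φ, p1, p2⟩ := clu U (a := xi 𝕜) (fun γ => nsm (r := (j + 1 : ℝ)⁻¹) (by positivity)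
    (e2_le γ)) (fun x => by
      filter_upwards [u, hU (mem_inf_of_left (show (Function.support x.1.1)ᶜ ∈ F from
        compl_mem_comk.2 x.1.2))] with γ h1 h2
      have : e1 γ x = 0 := not_not.1 h2
      simp only [xi, _root_.add_apply, _root_.smul_apply, this, h1.1, smul_zero, zero_add])
    (u.mono fun γ hγ => subset_convexHull ℝ _ hγ.2)
  exact ⟨φ, subset_convexHull _ _ (mem_iUnion.2 ⟨k, p1⟩), by
    rw [dist_zero_left]
    exact p2.trans_lt (one_div (j + 1 : ℝ) ▸ hj)⟩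

end Pool.Agent.H.MP_a5b52c_an
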